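import Pool.Agent.Lib.MP_a60258_s6.Iface

/-! Module AVG: averaging over the relabellings. -/

set_option autoImplicit false

open MvPolynomial Finset

namespace A602.S6.H91

theorem ends_ne (e : Pr) : (ends e).1 ≠ (ends e).2 := by
  revert e; decide

theorem ends_pr (u v : Fin 6) (h : u ≠ v) : ends (pr u v) = (u, v) ∨ ends (pr u v) = (v, u) := by
  revert h; revert u v; decide

theorem pr_comm (u v : Fin 6) : pr u v = pr v u := by
  revert u v; decide

theorem pr_ends (e : Pr) : pr (ends e).1 (ends e).2 = e := by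
  revert e; decide

/-- the permutation of the pairs -/
def pe (σ : Equiv.Perm (Fin 6)) (e : Pr) : Pr := pr (σ (ends e).1) (σ (ends e).2)

theorem act_eq (σ : Equiv.Perm (Fin 6)) (x : Pr → ℕ) : act σ x = x ∘ pe σ := rfl

theorem pe_pe (σ τ : Equiv.Perm (Fin 6)) (e : Pr) : pe τ (pe σ e) = pe (τ * σ) e := by
  have h1 : σ (ends e).1 ≠ σ (ends e).2 := fun h => ends_ne e (σ.injective h)
  unfold pe
  rcases ends_pr _ _ h1 with h | h
  · rw [h]; rfl
  · rw [h, pr_comm]; rfl

theorem pe_one (e : Pr) : pe 1 e = e := pr_ends e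

/-- the same as an equivalence -/
def peq (σ : Equiv.Perm (Fin 6)) : Equiv.Perm Pr where
  toFun := pe σ
  invFun := pe σ⁻¹
  left_inv e := by rw [pe_pe, inv_mul_cancel, pe_one]
  right_inv e := by rw [pe_pe, mul_inv_cancel, pe_one]

theorem sum_act (σ : Equiv.Perm (Fin 6)) (x : Pr → ℕ) : ∑ e, act σ x e = ∑ e, x e :=
  Equiv.sum_comp (peq σ) x

theorem ifac_act (σ : Equiv.Perm (Fin 6)) (x : Pr → ℕ) : ifac (act σ x) = ifac x :=
  Equiv.prod_comp (peq σ) fun a => ((x a).factorial : ℝ)⁻¹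

theorem act_act_inv (σ : Equiv.Perm (Fin 6)) (x : Pr → ℕ) : act σ (act σ⁻¹ x) = x := by
  funext e
  change x (pe σ⁻¹ (pe σ e)) = x e
  rw [pe_pe, inv_mul_cancel, pe_one]

theorem act_inv_act (σ : Equiv.Perm (Fin 6)) (x : Pr → ℕ) : act σ⁻¹ (act σ x) = x := by
  funext e
  change x (pe σ (pe σ⁻¹ e)) = x e
  rw [pe_pe, mul_inv_cancel, pe_one]

theorem Lf_act (σ : Equiv.Perm (Fin 6)) (n : ℕ) (F : (Pr → ℕ) → ℝ) :
    Lf n (fun x => F (act σ x)) = Lf n F := by
  unfold Lf
  refine Finset.sum_nbij' (act σ) (act σ⁻¹) ?_ ?_ ?_ ?_ ?_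
  · intro x hx
    rw [mem_piAntidiag] at hx ⊢
    exact ⟨by rw [sum_act]; exact hx.1, fun i _ => mem_univ i⟩
  · intro x hx
    rw [mem_piAntidiag] at hx ⊢
    exact ⟨by rw [sum_act]; exact hx.1, fun i _ => mem_univ i⟩
  · intro x _; exact act_inv_act σ x
  · intro x _; exact act_act_inv σ x
  · intro x _; rw [ifac_act]

theorem avg (h1 : PvpStatement) (h2 : PvzStatement) : AvgStatement := by
  intro S p P g hC hg
  set F : (Pr → ℕ) → ℝ := fun x => (g x : ℝ) * Vx S P x with hF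
  have h3 : ∑ σ : Equiv.Perm (Fin 6), Lf (3 * p) (fun x => F (act σ x)) = 0 := by
    unfold Lf
    rw [Finset.sum_comm]
    refine Finset.sum_eq_zero fun x _ => ?_
    rw [← Finset.mul_sum]
    have h4 : ∑ σ : Equiv.Perm (Fin 6), F (act σ x) = 0 := by
      have h5 : ∀ σ ∈ (Finset.univ : Finset (Equiv.Perm (Fin 6))),
          F (act σ x) = (g (act σ x) : ℝ) * Vx S P x := by
        intro σ _
        rw [hF]
        simp only
        rw [h1.2 S P σ x]
      rw [Finset.sum_congr rfl h5, ← Finset.sum_mul]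
      by_cases hx : Cmp p x
      · have h6 := hg x hx
        have h7 : ∑ σ : Equiv.Perm (Fin 6), (g (act σ x) : ℝ) = 0 := by exact_mod_cast h6
        rw [h7, zero_mul]
      · rw [h2 S p P x hC hx, mul_zero]
    rw [h4, mul_zero]
  have h8 : ∑ σ : Equiv.Perm (Fin 6), Lf (3 * p) (fun x => F (act σ x)) =
      (Fintype.card (Equiv.Perm (Fin 6)) : ℝ) * Lf (3 * p) F := by
    rw [Finset.sum_congr rfl fun σ _ => Lf_act σ (3 * p) F, Finset.sum_const, nsmul_eq_mul]
    rfl
  rw [h8] at h3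
  rcases mul_eq_zero.mp h3 with h | h
  · exfalso
    have h9 : (Fintype.card (Equiv.Perm (Fin 6)) : ℝ) ≠ 0 := by
      exact_mod_cast Fintype.card_ne_zero
    exact h9 h
  · exact h

end A602.S6.H91
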